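import Pool.Agent.Y755.AX.Stm

/-! Project AX: marking the points of a stationary process gives a stationary process
(job AX-ATS, helper994). -/

set_option autoImplicit false

open MeasureTheory ProbabilityTheory Filter
open Pool.Agent.Y755.AX

namespace Pool.Agent.Y994.AX.ATS

theorem idx_zero (A : ℤ → Bool) : idx A 0 = 0 := by
  unfold idx
  simp

theorem idx_succ (A : ℤ → Bool) (x : ℤ) : idx A (x + 1) = idx A x + (if A x = true then 1 else 0) := by
  classical
  unfold idx
  rcases le_or_gt 0 x with hx | hx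
  · have h1 : Finset.Ico (0 : ℤ) (x + 1) = insert x (Finset.Ico 0 x) := by
      ext y; simp only [Finset.mem_Ico, Finset.mem_insert]; omega
    have h2 : Finset.Ico (x + 1) (0 : ℤ) = ∅ := Finset.Ico_eq_empty (by omega)
    have h3 : Finset.Ico x (0 : ℤ) = ∅ := Finset.Ico_eq_empty (by omega)
    rw [h1, h2, h3, Finset.filter_insert]
    by_cases hA : A x = true
    · rw [if_pos hA, if_pos hA, Finset.card_insert_of_notMem]
      · push_cast; ring
      · simp
    · rw [if_neg hA, if_neg hA]; ring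
  · have h1 : Finset.Ico x (0 : ℤ) = insert x (Finset.Ico (x + 1) 0) := by
      ext y; simp only [Finset.mem_Ico, Finset.mem_insert]; omega
    have h2 : Finset.Ico (0 : ℤ) (x + 1) = ∅ := Finset.Ico_eq_empty (by omega)
    have h3 : Finset.Ico (0 : ℤ) x = ∅ := Finset.Ico_eq_empty (by omega)
    rw [h1, h2, h3, Finset.filter_insert]
    by_cases hA : A x = true
    · rw [if_pos hA, if_pos hA, Finset.card_insert_of_notMem]
      · push_cast; ring
      · simp
    · rw [if_neg hA, if_neg hA]; ring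

theorem idx_sh (A : ℤ → Bool) (x : ℤ) :
    idx A (x + 1) = idx (sh A) x + (if A 0 = true then 1 else 0) := by
  have hs : ∀ y, idx (sh A) (y + 1) = idx (sh A) y + (if A (y + 1) = true then 1 else 0) :=
    fun y => idx_succ (sh A) y
  induction x using Int.induction_on with
  | zero =>
    rw [idx_succ A 0, idx_zero, idx_zero]
  | succ i ih =>
    rw [idx_succ A ((i : ℤ) + 1), ih, hs]
    ring
  | pred i ih =>
    have h1 := idx_succ A (-(i : ℤ) - 1 + 1)
    have h2 := hs (-(i : ℤ) - 1)
    have h3 : -(i : ℤ) - 1 + 1 = -(i : ℤ) := by ring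
    rw [h3] at h1 h2 ⊢
    rw [ih, h2] at h1
    linarith

/-- the transformation of the pairs -/
def G (p : (ℤ → Bool) × (ℤ → Bool)) : (ℤ → Bool) × (ℤ → Bool) :=
  (sh p.1, if p.1 0 = true then sh p.2 else p.2)

theorem att_sh (p : (ℤ → Bool) × (ℤ → Bool)) :
    sh (att p.1 p.2) = att (G p).1 (G p).2 := by
  obtain ⟨A, Y⟩ := p
  funext x
  show (A (x + 1), A (x + 1) && Y (idx A (x + 1))) =
    (sh A x, sh A x && (if A 0 = true then sh Y else Y) (idx (sh A) x))
  rw [idx_sh]
  by_cases h : A 0 = true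
  · rw [if_pos h, if_pos h]; rfl
  · rw [if_neg h, if_neg h, add_zero]; rfl

theorem meas_sh {α : Type} [MeasurableSpace α] : Measurable (sh : (ℤ → α) → ℤ → α) :=
  measurable_pi_lambda _ (fun x => measurable_pi_apply (x + 1))

theorem meas_idx (x : ℤ) : Measurable (fun A : ℤ → Bool => idx A x) := by
  classical
  have h : ∀ S : Finset ℤ, Measurable (fun A : ℤ → Bool =>
      (((S.filter fun y => A y = true).card : ℕ) : ℤ)) := by
    intro S
    have he : (fun A : ℤ → Bool => (((S.filter fun y => A y = true).card : ℕ) : ℤ)) =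
        fun A => ∑ y ∈ S, (if A y = true then (1 : ℤ) else 0) := by
      funext A
      rw [Finset.card_filter]
      push_cast
      rfl
    rw [he]
    refine Finset.measurable_sum S (fun y _ => ?_)
    exact (Measurable.of_discrete (f := fun b : Bool => if b = true then (1 : ℤ) else 0)).comp
      (measurable_pi_apply y)
  have := (h (Finset.Ico 0 x)).sub (h (Finset.Ico x 0))
  convert this using 1
  funext A
  unfold idx
  congr!

theorem meas_eval : Measurable (fun q : ℤ × (ℤ → Bool) => q.2 q.1) :=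
  measurable_from_prod_countable_right (fun n => measurable_pi_apply n)

theorem meas_att : Measurable (fun p : (ℤ → Bool) × (ℤ → Bool) => att p.1 p.2) := by
  refine measurable_pi_lambda _ (fun x => ?_)
  have h1 : Measurable (fun p : (ℤ → Bool) × (ℤ → Bool) => p.1 x) :=
    (measurable_pi_apply x).comp measurable_fst
  have h2 : Measurable (fun p : (ℤ → Bool) × (ℤ → Bool) => p.2 (idx p.1 x)) :=
    meas_eval.comp (((meas_idx x).comp measurable_fst).prodMk measurable_snd)
  refine Measurable.prodMk h1 ?_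
  exact (Measurable.of_discrete (f := fun b : Bool × Bool => b.1 && b.2)).comp (h1.prodMk h2)

theorem meas_G : Measurable G := by
  refine Measurable.prodMk (meas_sh.comp measurable_fst) ?_
  refine Measurable.ite ?_ (meas_sh.comp measurable_snd) measurable_snd
  exact measurableSet_eq_fun ((measurable_pi_apply 0).comp measurable_fst) measurable_const

theorem map_G (μ ν : Measure (ℤ → Bool)) [IsProbabilityMeasure μ] [IsProbabilityMeasure ν]
    (hμ : Sta μ) (hν : Sta ν) : (μ.prod ν).map G = μ.prod ν := by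
  symm
  refine Measure.prod_eq (fun s t hs ht => ?_)
  rw [Measure.map_apply meas_G (hs.prod ht)]
  have hT : MeasurableSet {A : ℤ → Bool | A 0 = true} :=
    measurableSet_eq_fun (measurable_pi_apply 0) measurable_const
  have hpre : G ⁻¹' (s ×ˢ t) =
      ((sh ⁻¹' s ∩ {A : ℤ → Bool | A 0 = true}) ×ˢ (sh ⁻¹' t)) ∪
      ((sh ⁻¹' s ∩ {A : ℤ → Bool | A 0 = true}ᶜ) ×ˢ t) := by
    ext ⟨A, Y⟩
    simp only [G, Set.mem_preimage, Set.mem_prod, Set.mem_union, Set.mem_inter_iff,
      Set.mem_ofPred_eq, Set.mem_compl_iff]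
    by_cases h : A 0 = true
    · simp [h]
    · simp [h]
  have hdis : Disjoint ((sh ⁻¹' s ∩ {A : ℤ → Bool | A 0 = true}) ×ˢ (sh ⁻¹' t))
      ((sh ⁻¹' s ∩ {A : ℤ → Bool | A 0 = true}ᶜ) ×ˢ t) := by
    rw [Set.disjoint_left]
    rintro ⟨A, Y⟩ h1 h2
    exact h2.1.2 h1.1.2
  have hs' : MeasurableSet (sh ⁻¹' s : Set (ℤ → Bool)) := meas_sh hs
  have ht' : MeasurableSet (sh ⁻¹' t : Set (ℤ → Bool)) := meas_sh ht
  rw [hpre, measure_union hdis ((hs'.inter hT.compl).prod ht), Measure.prod_prod,
    Measure.prod_prod]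
  have h1 : ν (sh ⁻¹' t) = ν t := by
    conv_rhs => rw [← hν]
    rw [Measure.map_apply meas_sh ht]
  have h2 : μ (sh ⁻¹' s) = μ s := by
    conv_rhs => rw [← hμ]
    rw [Measure.map_apply meas_sh hs]
  have h3 := measure_inter_add_sdiff (μ := μ) (sh ⁻¹' s) hT
  rw [Set.sdiff_eq] at h3
  rw [h1, ← add_mul, h3, h2]

theorem t_ATS : S_ATS := by
  intro μ ν hμp hνp hμ hν
  refine ⟨meas_att, ?_⟩
  show ((μ.prod ν).map fun p => att p.1 p.2).map sh = _
  rw [Measure.map_map meas_sh meas_att]
  have : (sh ∘ fun p : (ℤ → Bool) × (ℤ → Bool) => att p.1 p.2) =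
      (fun p : (ℤ → Bool) × (ℤ → Bool) => att p.1 p.2) ∘ G := by
    funext p
    exact att_sh p
  rw [this, ← Measure.map_map meas_att meas_G, map_G μ ν hμ hν]

end Pool.Agent.Y994.AX.ATS
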