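import Pool.Agent.Y755.AX.Stm

/-! Project AX: continuity of the evaluations and the number of zeros in an interval
(job AX-CNT, helper994). -/

set_option autoImplicit false

open MeasureTheory ProbabilityTheory Filter
open Pool.Agent.Y755.AX

namespace Pool.Agent.Y994.AX.CNT

theorem t_EVC : S_EVC := by
  intro x
  show Continuous (fun d : {d : ℝ → ℝ // IsE d} => d.1 x)
  exact (continuous_apply x).comp continuous_subtype_val

theorem zs_sep (d : E) (x y : ℝ) (hx : x ∈ Zs d) (hy : y ∈ Zs d) (hxy : x ≠ y) :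
    1 ≤ |x - y| := by
  have h := d.2.2.2.2 x y
  have hx' : d.1 x = 0 := hx
  have hy' : d.1 y = 0 := hy
  rw [hx', hy', add_zero] at h
  have hpos : 0 < |x - y| := abs_pos.2 (sub_ne_zero.2 hxy)
  rcases min_le_iff.1 h with h1 | h1
  · linarith
  · linarith

theorem floor_inj (d : E) : Set.InjOn (fun x : ℝ => ⌊x⌋) (Zs d) := by
  intro x hx y hy hxy
  by_contra hne
  have h1 := zs_sep d x y hx hy hne
  have h2 : |x - y| < 1 := Int.abs_sub_lt_one_of_floor_eq_floor hxy
  linarith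

theorem zs_fin (d : E) (u v : ℝ) : (Zs d ∩ Set.Icc u v).Finite := by
  refine Set.Finite.of_injOn (f := fun x : ℝ => ⌊x⌋) (t := Set.Icc ⌊u⌋ ⌊v⌋) ?_
    ((floor_inj d).mono Set.inter_subset_left) (Set.finite_Icc _ _)
  intro x hx
  exact ⟨Int.floor_le_floor hx.2.1, Int.floor_le_floor hx.2.2⟩

theorem meas_ev (S : Set ℝ) (r : ℝ) (hr : r ∈ S) : Measurable[Gs S] (ev r) := by
  rw [measurable_iff_comap_le]
  exact le_iSup₂ (f := fun x (_ : x ∈ S) => MeasurableSpace.comap (ev x) inferInstance) r hr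

theorem gs_mono {S T : Set ℝ} (h : S ⊆ T) : Gs S ≤ Gs T :=
  biSup_mono (fun _ hx => h hx)

/-- there is a zero in a closed interval -/
theorem meas_closed (p q : ℝ) :
    MeasurableSet[Gs (Set.Icc p q)] {d : E | ∃ z ∈ Set.Icc p q, d.1 z = 0} := by
  rcases lt_or_ge q p with hpq | hpq
  · have : {d : E | ∃ z ∈ Set.Icc p q, d.1 z = 0} = ∅ := by
      ext d
      simp [Set.Icc_eq_empty (not_le.2 hpq)]
    rw [this]
    exact @MeasurableSet.empty _ (Gs (Set.Icc p q))
  · obtain ⟨D, hDc, hDd⟩ := TopologicalSpace.exists_countable_dense (Set.Icc p q)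
    have heq : {d : E | ∃ z ∈ Set.Icc p q, d.1 z = 0} =
        ⋂ k : ℕ, ⋃ r ∈ D, (ev (r : ℝ)) ⁻¹' (Set.Iio (1 / ((k : ℝ) + 1))) := by
      ext d
      simp only [Set.mem_iInter, Set.mem_iUnion, Set.mem_preimage, Set.mem_Iio, exists_prop]
      constructor
      · rintro ⟨z, hz, hdz⟩ k
        have hk : (0 : ℝ) < 1 / ((k : ℝ) + 1) := by positivity
        obtain ⟨r, hr, hrD⟩ := Metric.dense_iff.1 hDd ⟨z, hz⟩ _ hk
        refine ⟨r, hrD, ?_⟩
        have h1 : |d.1 (r : ℝ) - d.1 z| ≤ |(r : ℝ) - z| := d.2.1 r z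
        have h2 : |(r : ℝ) - z| < 1 / ((k : ℝ) + 1) := by
          have := Metric.mem_ball.1 hr
          rwa [Subtype.dist_eq, Real.dist_eq] at this
        rw [hdz, sub_zero] at h1
        show d.1 (r : ℝ) < _
        exact lt_of_le_of_lt (le_trans (le_abs_self _) h1) h2
      · intro h
        have hcont : Continuous d.1 := by
          have hl : LipschitzWith 1 d.1 := LipschitzWith.of_dist_le_mul (fun x y => by
            rw [Real.dist_eq, Real.dist_eq, NNReal.coe_one, one_mul]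
            exact d.2.1 x y)
          exact hl.continuous
        obtain ⟨z, hz, hmin⟩ := isCompact_Icc.exists_isMinOn (Set.nonempty_Icc.2 hpq)
          hcont.continuousOn
        refine ⟨z, hz, ?_⟩
        have h0 : 0 ≤ d.1 z := (d.2.2.1 z).1
        have h1 : ∀ k : ℕ, d.1 z < 1 / ((k : ℝ) + 1) := by
          intro k
          obtain ⟨r, _, hr⟩ := h k
          exact lt_of_le_of_lt (hmin r.2) hr
        by_contra hne
        have hpos : 0 < d.1 z := lt_of_le_of_ne h0 (Ne.symm hne)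
        obtain ⟨n, hn⟩ := exists_nat_one_div_lt hpos
        exact lt_irrefl _ (lt_trans (h1 n) hn)
    rw [heq]
    refine MeasurableSet.iInter (fun k => MeasurableSet.biUnion hDc (fun r _ => ?_))
    exact meas_ev (Set.Icc p q) r r.2 measurableSet_Iio

/-- there is a zero in the cell with a given integer part -/
def Cell (u v : ℝ) (j : ℤ) : Set E := {d : E | ∃ z ∈ Zs d ∩ Set.Icc u v, ⌊z⌋ = j}

theorem meas_cell (u v : ℝ) (j : ℤ) : MeasurableSet[Gs (Set.Icc u v)] (Cell u v j) := by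
  have heq : Cell u v j = ⋃ k : ℕ, {d : E | ∃ z ∈ Set.Icc (max (j : ℝ) u)
      (min ((j : ℝ) + 1 - 1 / ((k : ℝ) + 1)) v), d.1 z = 0} := by
    ext d
    simp only [Cell, Set.mem_iUnion]
    constructor
    · rintro ⟨z, ⟨hz0, hz1⟩, hz2⟩
      have h1 : (j : ℝ) ≤ z := by rw [← hz2]; exact Int.floor_le z
      have h2 : z < (j : ℝ) + 1 := by rw [← hz2]; exact Int.lt_floor_add_one z
      obtain ⟨k, hk⟩ := exists_nat_one_div_lt (sub_pos.2 h2)
      exact ⟨k, z, ⟨max_le h1 hz1.1, le_min (by linarith) hz1.2⟩, hz0⟩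
    · rintro ⟨k, z, ⟨hz1, hz2⟩, hz0⟩
      have hk : (0 : ℝ) < 1 / ((k : ℝ) + 1) := by positivity
      refine ⟨z, ⟨hz0, le_trans (le_max_right _ _) hz1, le_trans hz2 (min_le_right _ _)⟩, ?_⟩
      rw [Int.floor_eq_iff]
      exact ⟨le_trans (le_max_left _ _) hz1,
        lt_of_le_of_lt (le_trans hz2 (min_le_left _ _)) (by linarith)⟩
  rw [heq]
  refine MeasurableSet.iUnion (fun k => ?_)
  refine gs_mono ?_ _ (meas_closed _ _)
  exact Set.Icc_subset_Icc (le_max_right _ _) (min_le_right _ _)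

open Classical in
theorem ncard_eq (d : E) (u v : ℝ) : (Zs d ∩ Set.Icc u v).ncard =
    ∑ j ∈ Finset.Icc ⌊u⌋ ⌊v⌋, (if d ∈ Cell u v j then 1 else 0) := by
  classical
  have hfin := zs_fin d u v
  rw [Set.ncard_eq_toFinset_card _ hfin, ← Finset.card_filter]
  have hinj : Set.InjOn (fun x : ℝ => ⌊x⌋) (hfin.toFinset : Set ℝ) := by
    rw [Set.Finite.coe_toFinset]
    exact (floor_inj d).mono Set.inter_subset_left
  rw [← Finset.card_image_of_injOn hinj]
  congr 1
  ext j
  simp only [Finset.mem_image, Set.Finite.mem_toFinset, Finset.mem_filter, Finset.mem_Icc]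
  constructor
  · rintro ⟨x, hx, rfl⟩
    exact ⟨⟨Int.floor_le_floor hx.2.1, Int.floor_le_floor hx.2.2⟩, x, hx, rfl⟩
  · rintro ⟨_, x, hx, h⟩
    exact ⟨x, hx, h⟩

theorem t_CNT : S_CNT := by
  classical
  intro u v
  refine ⟨fun d => zs_fin d u v, ?_⟩
  have heq : (fun d : E => (Zs d ∩ Set.Icc u v).ncard) =
      fun d : E => ∑ j ∈ Finset.Icc ⌊u⌋ ⌊v⌋, (if d ∈ Cell u v j then 1 else 0) := by
    funext d
    exact ncard_eq d u v
  rw [heq]
  refine Finset.measurable_sum _ (fun j _ => ?_)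
  exact Measurable.ite (meas_cell u v j) measurable_const measurable_const

end Pool.Agent.Y994.AX.CNT
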